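import Mathlib
import Pool.Agent.H8.Split

set_option autoImplicit false

namespace Pool.Agent.Results.MP_293d80_gt.NotAdd

open Pool.Agent.H8.SG

theorem result (h : Cardinal.continuum.{0} = Cardinal.aleph 1) :
    ∃ X Y : Set ℝ, Split X ∧ Split Y ∧ ¬ Split (X ∪ Y) :=
  split_union h

end Pool.Agent.Results.MP_293d80_gt.NotAdd
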